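import Mathlib
import Pool.Agent.Y913.Vm.Fer
import Pool.Agent.Y913.Sm.Viol

/-!
# S-solutions of the generalised Fermat equation counted by their bases

For every finite set `S` and every `ε > 0` there are `R` and `C` such that the triples of terms
`(a x ^ p, b y ^ q, c z ^ r)` of all `S`-solutions with `|xyz| ≤ X` and at least two exponents
`≥ R` are finite in number, and at most `C X ^ (1/3 + ε)`; if all elements of `S` are odd, there are
at most `C Y ^ ε` triples of terms of `S`-solutions with `|x|, |y|, |z| ≤ Y` and two exponents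
`≥ R`. There is no bound on the exponents, the terms or the coefficients.

For arbitrary `S` the bound `C Y ^ ε` holds for the solutions for which `xyz` is divisible by a prime
`≤ Y ^ η`, or one of the powers is at most the largest term to the power `1 - δ`, or the terms are
at most `exp (Y ^ η)`; here the coefficients may even be products of powers of `n` integers
`≤ Y ^ η` which depend on the solution.
-/

set_option autoImplicit false

namespace Pool.Agent.Results.MP_be1fae_nt.AllSolutionsByBases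

/-- `a` is, up to sign, a product of powers of `n` positive integers `≤ W` -/
def Coefficient (n : ℕ) (W : ℝ) (a : ℤ) : Prop :=
  ∃ y e : Fin n → ℕ, (∀ i, 0 < y i ∧ (y i : ℝ) ≤ W) ∧ a.natAbs = ∏ i, y i ^ e i

/-- solutions of `a x ^ p + b y ^ q = c z ^ r` with nonzero entries, positive exponents and
`gcd (ax, by, cz) = 1` -/
def Solution (a b c x y z : ℤ) (p q r : ℕ) : Prop :=
  a * x ^ p + b * y ^ q = c * z ^ r ∧ a ≠ 0 ∧ b ≠ 0 ∧ c ≠ 0 ∧ x ≠ 0 ∧ y ≠ 0 ∧ z ≠ 0 ∧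
    0 < p ∧ 0 < q ∧ 0 < r ∧ Int.gcd (a * x) (Int.gcd (b * y) (c * z)) = 1

/-- all three bases are at most `Y` -/
def Bases (Y : ℝ) (x y z : ℤ) : Prop := |(x : ℝ)| ≤ Y ∧ |(y : ℝ)| ≤ Y ∧ |(z : ℝ)| ≤ Y

/-- at least two of the exponents are `≥ R` -/
def TwoLarge (R p q r : ℕ) : Prop := (R ≤ p ∧ R ≤ q) ∨ (R ≤ p ∧ R ≤ r) ∨ (R ≤ q ∧ R ≤ r)

/-- some prime `≤ W` divides `m` -/
def SmallPrime (W : ℝ) (m : ℤ) : Prop := ∃ l : ℕ, l.Prime ∧ (l : ℝ) ≤ W ∧ (l : ℤ) ∣ m

/-- the largest absolute value of a term -/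
noncomputable def top (t : ℤ × ℤ × ℤ) : ℝ := max (max |(t.1 : ℝ)| |(t.2.1 : ℝ)|) |(t.2.2 : ℝ)|

/-- the triples of terms of the solutions with `|x|, |y|, |z| ≤ Y`, coefficients made of `n`
integers `≤ Y ^ η`, two exponents `≥ R`, and one of: a prime `≤ Y ^ η` divides `xyz`; one of the
powers is at most the largest term to the power `1 - δ`; all terms are at most `exp (Y ^ η)` -/
def General (n R : ℕ) (δ η Y : ℝ) : Set (ℤ × ℤ × ℤ) :=
  {t | ∃ (a b c x y z : ℤ) (p q r : ℕ), Solution a b c x y z p q r ∧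
    t = (a * x ^ p, b * y ^ q, c * z ^ r) ∧
    Coefficient n (Y ^ η) a ∧ Coefficient n (Y ^ η) b ∧ Coefficient n (Y ^ η) c ∧
    Bases Y x y z ∧ TwoLarge R p q r ∧
    (SmallPrime (Y ^ η) (x * y * z) ∨
      (|(x : ℝ)| ^ p ≤ top t ^ (1 - δ) ∨ |(y : ℝ)| ^ q ≤ top t ^ (1 - δ) ∨
        |(z : ℝ)| ^ r ≤ top t ^ (1 - δ)) ∨
      top t ≤ Real.exp (Y ^ η))}

/-- the triples of terms of the `S`-solutions with `|x|, |y|, |z| ≤ Y` and two exponents `≥ R` -/
def ByBases (S : Finset ℕ) (R : ℕ) (Y : ℝ) : Set (ℤ × ℤ × ℤ) :=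
  {t | ∃ (a b c x y z : ℤ) (p q r : ℕ), Solution a b c x y z p q r ∧
    t = (a * x ^ p, b * y ^ q, c * z ^ r) ∧
    (∀ l : ℕ, l.Prime → (l : ℤ) ∣ a * b * c → l ∈ S) ∧ TwoLarge R p q r ∧ Bases Y x y z}

/-- the triples of terms of the `S`-solutions with `|xyz| ≤ X` and two exponents `≥ R` -/
def ByProduct (S : Finset ℕ) (R : ℕ) (X : ℝ) : Set (ℤ × ℤ × ℤ) :=
  {t | ∃ (a b c x y z : ℤ) (p q r : ℕ), Solution a b c x y z p q r ∧
    t = (a * x ^ p, b * y ^ q, c * z ^ r) ∧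
    (∀ l : ℕ, l.Prime → (l : ℤ) ∣ a * b * c → l ∈ S) ∧ TwoLarge R p q r ∧
    |((x * y * z : ℤ) : ℝ)| ≤ X}

open Finset Pool.Agent.Y913 Pool.Agent.Y913.Nb Pool.Agent.Y913.Vm

/-- a permutation of the members -/
lemma ft_of {n R : ℕ} {δ η W Y : ℝ} {m a x p : Fin 3 → ℕ}
    (hm : ∀ i, m i = a i * x i ^ p i ∧ NB n W (a i) ∧ 0 < x i ∧ (x i : ℝ) ≤ Y)
    (hR : ∃ i j, i ≠ j ∧ R ≤ p i ∧ R ≤ p j) (σ : Equiv.Perm (Fin 3)) {q : ℕ × ℕ}
    (hq : ∀ i, mem3 q (σ i) = m i) (h1 : 0 < q.1) (h2 : 0 < q.2) (h3 : Nat.Coprime q.1 q.2)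
    (hc : (∃ (l : ℕ) (i : Fin 3), Nat.Prime l ∧ (l : ℝ) ≤ Y ^ η ∧ l ∣ x i) ∨
      (∃ i, ((x i ^ p i : ℕ) : ℝ) ≤ ((q.1 + q.2 : ℕ) : ℝ) ^ (1 - δ)) ∨
      Real.log ((q.1 + q.2 : ℕ) : ℝ) ≤ Y ^ η) : FT n R δ η W Y q := by
  refine ⟨h1, h2, h3, a ∘ σ.symm, x ∘ σ.symm, p ∘ σ.symm, ?_, ?_, ?_⟩
  · intro i
    have h4 := hq (σ.symm i)
    rw [Equiv.apply_symm_apply] at h4
    rw [h4]
    exact hm (σ.symm i)
  · obtain ⟨i, j, hij, hi, hj⟩ := hR
    refine ⟨σ i, σ j, fun h => hij (σ.injective h), ?_, ?_⟩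
    · simpa using hi
    · simpa using hj
  · rcases hc with ⟨l, i, hl, hlP, hli⟩ | ⟨i, hi⟩ | h
    · exact Or.inl ⟨l, σ i, hl, hlP, by simpa using hli⟩
    · exact Or.inr (Or.inl ⟨σ i, by simpa using hi⟩)
    · exact Or.inr (Or.inr h)

/-- the pair of coprime positive integers attached to a triple of terms -/
def pr (t : ℤ × ℤ × ℤ) : ℕ × ℕ :=
  if t.1.natAbs + t.2.1.natAbs = t.2.2.natAbs then (t.1.natAbs, t.2.1.natAbs)
  else if t.1.natAbs + t.2.2.natAbs = t.2.1.natAbs then (t.1.natAbs, t.2.2.natAbs)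
  else (t.2.1.natAbs, t.2.2.natAbs)

/-- the position of the largest term -/
def ps (t : ℤ × ℤ × ℤ) : Fin 3 :=
  if t.1.natAbs + t.2.1.natAbs = t.2.2.natAbs then 2
  else if t.1.natAbs + t.2.2.natAbs = t.2.1.natAbs then 1 else 0

lemma ft_terms {n R : ℕ} {δ η W Y : ℝ} {a b c x y z : ℤ} {p q r : ℕ}
    (hs : Solution a b c x y z p q r) (ha : Coefficient n W a) (hb : Coefficient n W b)
    (hc : Coefficient n W c) (hB : Bases Y x y z) (hR : TwoLarge R p q r)
    (hcase : SmallPrime (Y ^ η) (x * y * z) ∨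
      (|(x : ℝ)| ^ p ≤ top (a * x ^ p, b * y ^ q, c * z ^ r) ^ (1 - δ) ∨
        |(y : ℝ)| ^ q ≤ top (a * x ^ p, b * y ^ q, c * z ^ r) ^ (1 - δ) ∨
        |(z : ℝ)| ^ r ≤ top (a * x ^ p, b * y ^ q, c * z ^ r) ^ (1 - δ)) ∨
      top (a * x ^ p, b * y ^ q, c * z ^ r) ≤ Real.exp (Y ^ η)) :
    FT n R δ η W Y (pr (a * x ^ p, b * y ^ q, c * z ^ r)) := by
  obtain ⟨heq, ha0, hb0, hc0, hx0, hy0, hz0, hp, hq, hr, hgcd⟩ := hs
  obtain ⟨t, ht⟩ : ∃ t : ℤ × ℤ × ℤ, t = (a * x ^ p, b * y ^ q, c * z ^ r) := ⟨_, rfl⟩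
  rw [← ht] at hcase ⊢
  have hA : t.1.natAbs = a.natAbs * x.natAbs ^ p := by
    rw [ht]
    simp only [Int.natAbs_mul, Int.natAbs_pow]
  have hBm : t.2.1.natAbs = b.natAbs * y.natAbs ^ q := by
    rw [ht]
    simp only [Int.natAbs_mul, Int.natAbs_pow]
  have hC : t.2.2.natAbs = c.natAbs * z.natAbs ^ r := by
    rw [ht]
    simp only [Int.natAbs_mul, Int.natAbs_pow]
  have hsum : t.1 + t.2.1 = t.2.2 := by rw [ht]; exact heq
  have hpos1 : 0 < t.1.natAbs := by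
    rw [ht]
    exact Int.natAbs_pos.mpr (mul_ne_zero ha0 (pow_ne_zero _ hx0))
  have hpos2 : 0 < t.2.1.natAbs := by
    rw [ht]
    exact Int.natAbs_pos.mpr (mul_ne_zero hb0 (pow_ne_zero _ hy0))
  have hpos3 : 0 < t.2.2.natAbs := by
    rw [ht]
    exact Int.natAbs_pos.mpr (mul_ne_zero hc0 (pow_ne_zero _ hz0))
  -- coprimality
  have hdv : ∀ l : ℕ, l.Prime → ¬ ((l : ℤ) ∣ t.1 ∧ (l : ℤ) ∣ t.2.1 ∧ (l : ℤ) ∣ t.2.2) := by
    rintro l hl ⟨h1, h2, h3⟩
    have hlp : Prime (l : ℤ) := Nat.prime_iff_prime_int.mp hl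
    rw [ht] at h1 h2 h3
    have g : ∀ (u v : ℤ) (k : ℕ), (l : ℤ) ∣ u * v ^ k → (l : ℤ) ∣ u * v := by
      intro u v k h
      rcases hlp.dvd_or_dvd h with h | h
      · exact h.mul_right _
      · exact (hlp.dvd_of_dvd_pow h).mul_left _
    have h4 := Int.dvd_coe_gcd (g a x p h1)
      (Int.dvd_coe_gcd (g b y q h2) (g c z r h3))
    rw [hgcd] at h4
    exact hlp.not_isUnit (isUnit_of_dvd_one (by exact_mod_cast h4))
  have hcop12 : Nat.Coprime t.1.natAbs t.2.1.natAbs := by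
    apply Nat.Coprime.symm
    apply Nat.coprime_of_dvd
    intro l hl h1 h2
    rw [← Int.natCast_dvd] at h1 h2
    exact hdv l hl ⟨h2, h1, by rw [← hsum]; exact dvd_add h2 h1⟩
  have hcop13 : Nat.Coprime t.1.natAbs t.2.2.natAbs := by
    apply Nat.Coprime.symm
    apply Nat.coprime_of_dvd
    intro l hl h1 h2
    rw [← Int.natCast_dvd] at h1 h2
    refine hdv l hl ⟨h2, ?_, h1⟩
    have : t.2.1 = t.2.2 - t.1 := by rw [← hsum]; ring
    rw [this]
    exact dvd_sub h1 h2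
  have hcop23 : Nat.Coprime t.2.1.natAbs t.2.2.natAbs := by
    apply Nat.Coprime.symm
    apply Nat.coprime_of_dvd
    intro l hl h1 h2
    rw [← Int.natCast_dvd] at h1 h2
    refine hdv l hl ⟨?_, h2, h1⟩
    have : t.1 = t.2.2 - t.2.1 := by rw [← hsum]; ring
    rw [this]
    exact dvd_sub h1 h2
  -- the data
  have hxY : ∀ u : ℤ, |(u : ℝ)| ≤ Y → (u.natAbs : ℝ) ≤ Y := by
    intro u hu
    rwa [Nat.cast_natAbs, Int.cast_abs]
  have hm : ∀ i, (![t.1.natAbs, t.2.1.natAbs, t.2.2.natAbs] : Fin 3 → ℕ) i =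
      (![a.natAbs, b.natAbs, c.natAbs] : Fin 3 → ℕ) i *
        (![x.natAbs, y.natAbs, z.natAbs] : Fin 3 → ℕ) i ^ (![p, q, r] : Fin 3 → ℕ) i ∧
      NB n W ((![a.natAbs, b.natAbs, c.natAbs] : Fin 3 → ℕ) i) ∧
      0 < (![x.natAbs, y.natAbs, z.natAbs] : Fin 3 → ℕ) i ∧
      (((![x.natAbs, y.natAbs, z.natAbs] : Fin 3 → ℕ) i : ℕ) : ℝ) ≤ Y := by
    intro i
    fin_cases i
    · exact ⟨hA, ha, Int.natAbs_pos.mpr hx0, hxY x hB.1⟩
    · exact ⟨hBm, hb, Int.natAbs_pos.mpr hy0, hxY y hB.2.1⟩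
    · exact ⟨hC, hc, Int.natAbs_pos.mpr hz0, hxY z hB.2.2⟩
  have hR' : ∃ i j : Fin 3, i ≠ j ∧ R ≤ (![p, q, r] : Fin 3 → ℕ) i ∧
      R ≤ (![p, q, r] : Fin 3 → ℕ) j := by
    rcases hR with h | h | h
    · exact ⟨0, 1, by decide, h.1, h.2⟩
    · exact ⟨0, 2, by decide, h.1, h.2⟩
    · exact ⟨1, 2, by decide, h.1, h.2⟩
  have hcs : ∀ M : ℕ, top t = (M : ℝ) → 0 < M →
      (∃ (l : ℕ) (i : Fin 3), Nat.Prime l ∧ (l : ℝ) ≤ Y ^ η ∧
        l ∣ (![x.natAbs, y.natAbs, z.natAbs] : Fin 3 → ℕ) i) ∨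
      (∃ i, (((![x.natAbs, y.natAbs, z.natAbs] : Fin 3 → ℕ) i ^
        (![p, q, r] : Fin 3 → ℕ) i : ℕ) : ℝ) ≤ (M : ℝ) ^ (1 - δ)) ∨
      Real.log (M : ℝ) ≤ Y ^ η := by
    intro M hM hM0
    rw [hM] at hcase
    have hab : ∀ (u : ℤ) (k : ℕ), ((u.natAbs ^ k : ℕ) : ℝ) = |(u : ℝ)| ^ k := by
      intro u k
      push_cast
      rw [Nat.cast_natAbs, Int.cast_abs]
    rcases hcase with ⟨l, hl, hlP, hlx⟩ | (h | h | h) | h
    · left
      have hlp : Prime (l : ℤ) := Nat.prime_iff_prime_int.mp hl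
      rcases hlp.dvd_or_dvd hlx with h1 | h1
      · rcases hlp.dvd_or_dvd h1 with h2 | h2
        · exact ⟨l, 0, hl, hlP, Int.natCast_dvd.mp h2⟩
        · exact ⟨l, 1, hl, hlP, Int.natCast_dvd.mp h2⟩
      · exact ⟨l, 2, hl, hlP, Int.natCast_dvd.mp h1⟩
    · right; left
      exact ⟨0, by rw [← hab] at h; exact h⟩
    · right; left
      exact ⟨1, by rw [← hab] at h; exact h⟩
    · right; left
      exact ⟨2, by rw [← hab] at h; exact h⟩
    · right; right
      rw [← Real.log_exp (Y ^ η)]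
      exact Real.log_le_log (by exact_mod_cast hM0) h
  have htop : ∀ M : ℕ, max (max t.1.natAbs t.2.1.natAbs) t.2.2.natAbs = M →
      top t = (M : ℝ) := by
    intro M hM
    unfold top
    rw [← hM]
    push_cast
    simp only [Nat.cast_natAbs, Int.cast_abs]
  unfold pr
  split_ifs with h1 h2
  · refine ft_of hm hR' (Equiv.refl _) (q := (t.1.natAbs, t.2.1.natAbs)) ?_ hpos1 hpos2 hcop12 ?_
    · intro i
      fin_cases i
      · rfl
      · rfl
      · exact h1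
    · exact hcs _ (htop _ (by simp only; omega)) (by simp only; omega)
  · refine ft_of hm hR' (Equiv.swap 1 2) (q := (t.1.natAbs, t.2.2.natAbs)) ?_ hpos1 hpos3
      hcop13 ?_
    · intro i
      fin_cases i
      · rfl
      · exact h2
      · rfl
    · exact hcs _ (htop _ (by simp only; omega)) (by simp only; omega)
  · have h3 : t.2.1.natAbs + t.2.2.natAbs = t.1.natAbs := by omega
    refine ft_of hm hR' (finRotate 3).symm (q := (t.2.1.natAbs, t.2.2.natAbs)) ?_ hpos2 hpos3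
      hcop23 ?_
    · intro i
      fin_cases i
      · exact h3
      · rfl
      · rfl
    · exact hcs _ (htop _ (by simp only; omega)) (by simp only; omega)

/-- a triple of terms is determined by its pair, the position of the largest term and signs -/
lemma card_terms (T : Finset (ℤ × ℤ × ℤ)) (hT : ∀ t ∈ T, t.1 + t.2.1 = t.2.2) :
    T.card ≤ 12 * (T.image pr).card := by
  classical
  have h1 : T.card ≤ ((Finset.univ : Finset (Fin 3 × Bool × Bool)) ×ˢ T.image pr).card := by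
    apply Finset.card_le_card_of_injOn
      (fun t => ((ps t, decide (0 ≤ t.1), decide (0 ≤ t.2.1)), pr t))
    · intro t ht
      rw [Finset.mem_coe] at ht ⊢
      rw [Finset.mem_product]
      exact ⟨Finset.mem_univ _, Finset.mem_image_of_mem _ ht⟩
    · rintro ⟨A, B, C⟩ ht ⟨A', B', C'⟩ ht' heq
      have e1 := hT _ (Finset.mem_coe.mp ht)
      have e2 := hT _ (Finset.mem_coe.mp ht')
      simp only [Prod.mk.injEq, decide_eq_decide] at heq e1 e2
      obtain ⟨⟨h2, h3, h4⟩, h5⟩ := heq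
      unfold ps at h2
      unfold pr at h5
      simp only at h2 h5
      split_ifs at h2 h5 <;> simp only [Prod.mk.injEq] at h5 <;>
        first
        | (exact absurd h2 (by decide))
        | (simp only [Prod.mk.injEq]; omega)
  rw [Finset.card_product, Finset.card_univ] at h1
  have : Fintype.card (Fin 3 × Bool × Bool) = 12 := by decide
  rwa [this] at h1

lemma finite_bound {T : Set (ℤ × ℤ × ℤ)} {N : ℝ}
    (h : ∀ Q : Finset (ℤ × ℤ × ℤ), (∀ q ∈ Q, q ∈ T) → (Q.card : ℝ) ≤ N) :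
    T.Finite ∧ (T.ncard : ℝ) ≤ N := by
  have hfin : T.Finite := by
    by_contra hinf
    rw [← Set.Infinite] at hinf
    obtain ⟨Q, hQ1, hQ2⟩ := hinf.exists_subset_card_eq (⌊N⌋₊ + 1)
    have h3 := h Q (fun q hq => hQ1 hq)
    rw [hQ2] at h3
    push_cast at h3
    have := Nat.lt_floor_add_one N
    linarith
  refine ⟨hfin, ?_⟩
  rw [Set.ncard_eq_toFinset_card _ hfin]
  exact h _ (fun q hq => by simpa using hq)

theorem general (n : ℕ) (δ ε : ℝ) (hδ : 0 < δ) (hε : 0 < ε) : ∃ R : ℕ, ∃ C η : ℝ, 0 < C ∧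
    0 < η ∧ ∀ Y : ℝ, 1 ≤ Y → ∀ T : Finset (ℤ × ℤ × ℤ), (∀ t ∈ T, t ∈ General n R δ η Y) →
      (T.card : ℝ) ≤ C * Y ^ ε := by
  classical
  obtain ⟨R, C, η, hC, hη, h⟩ := ft_count n δ ε hδ hε
  refine ⟨R, 12 * C, η, by positivity, hη, ?_⟩
  intro Y hY T hT
  have h1 := card_terms T (by
    intro t ht
    obtain ⟨a, b, c, x, y, z, p, q, r, hs, rfl, -⟩ := hT t ht
    exact hs.1)
  have h2 := h Y hY (T.image pr) (by
    intro q hq
    rw [Finset.mem_image] at hq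
    obtain ⟨t, ht, rfl⟩ := hq
    obtain ⟨a, b, c, x, y, z, p, q, r, hs, rfl, ha, hb, hc, hB, hR, hcase⟩ := hT t ht
    exact ft_terms hs ha hb hc hB hR hcase)
  have h3 : (T.card : ℝ) ≤ 12 * ((T.image pr).card : ℝ) := by exact_mod_cast h1
  calc (T.card : ℝ) ≤ 12 * ((T.image pr).card : ℝ) := h3
    _ ≤ 12 * (C * Y ^ ε) := by linarith
    _ = 12 * C * Y ^ ε := by ring

/-- coefficients composed of the primes of a finite set -/
lemma coeff_of_primes (S : Finset ℕ) {W : ℝ} (hW : 1 ≤ W) (hS : ∀ l ∈ S, (l : ℝ) ≤ W) {a : ℤ}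
    (ha : a ≠ 0) (h : ∀ l : ℕ, l.Prime → (l : ℤ) ∣ a → l ∈ S) : Coefficient S.card W a := by
  classical
  have h1 : a.natAbs ≠ 0 := Int.natAbs_ne_zero.mpr ha
  have h2 : a.natAbs.primeFactors ⊆ S := by
    intro l hl
    rw [Nat.mem_primeFactors] at hl
    exact h l hl.1 (Int.natCast_dvd.mpr hl.2.1)
  have h3 : a.natAbs = ∏ l ∈ a.natAbs.primeFactors, l ^ a.natAbs.factorization l := by
    conv_lhs => rw [← Nat.prod_factorization_pow_eq_self h1]
    rfl
  have h4 : NB S.card W a.natAbs := by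
    apply NB.of_type (ι := {l // l ∈ S}) (Fintype.card_coe S)
      (fun l => if l.1 ∈ a.natAbs.primeFactors then l.1 else 1)
      (fun l => a.natAbs.factorization l.1)
    · intro l
      split_ifs with hl
      · exact ⟨(Nat.prime_of_mem_primeFactors hl).pos, hS _ l.2⟩
      · exact ⟨one_pos, by push_cast; exact hW⟩
    · conv_lhs => rw [h3]
      rw [Finset.prod_coe_sort S (fun l => (if l ∈ a.natAbs.primeFactors then l else 1) ^
        a.natAbs.factorization l)]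
      have h5 : ∏ l ∈ a.natAbs.primeFactors, l ^ a.natAbs.factorization l =
          ∏ l ∈ a.natAbs.primeFactors, (if l ∈ a.natAbs.primeFactors then l else 1) ^
            a.natAbs.factorization l := by
        apply Finset.prod_congr rfl
        intro l hl
        rw [if_pos hl]
      rw [h5]
      apply Finset.prod_subset h2
      intro l _ hl
      rw [if_neg hl, one_pow]
  exact h4

/-- the odd case: one of the bases is even -/
lemma even_base {S : Finset ℕ} (h2 : 2 ∉ S) {a b c x y z : ℤ} {p q r : ℕ}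
    (hs : Solution a b c x y z p q r)
    (hS : ∀ l : ℕ, l.Prime → (l : ℤ) ∣ a * b * c → l ∈ S) : (2 : ℤ) ∣ x * y * z := by
  obtain ⟨heq, ha0, hb0, hc0, hx0, hy0, hz0, hp, hq, hr, hgcd⟩ := hs
  have h3 : ¬ ((2 : ℕ) : ℤ) ∣ a * b * c := fun h => h2 (hS 2 Nat.prime_two h)
  push_cast at h3 ⊢
  rw [← even_iff_two_dvd] at h3 ⊢
  rw [Int.even_mul, Int.even_mul, not_or, not_or] at h3
  obtain ⟨⟨ha, hb⟩, hc⟩ := h3
  by_contra h4
  rw [Int.even_mul, Int.even_mul, not_or, not_or] at h4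
  obtain ⟨⟨hx, hy⟩, hz⟩ := h4
  rw [Int.not_even_iff_odd] at *
  have h5 : Odd (a * x ^ p) := ha.mul (hx.pow)
  have h6 : Odd (b * y ^ q) := hb.mul (hy.pow)
  have h7 : Odd (c * z ^ r) := hc.mul (hz.pow)
  rw [← heq] at h7
  exact (Int.not_even_iff_odd.mpr h7) (h5.add_odd h6)

/-- constants depending on `S` -/
lemma exists_L (S : Finset ℕ) {η : ℝ} (hη : 0 < η) : ∃ L : ℝ, 1 ≤ L ∧ 2 ≤ L ^ η ∧
    ∀ l ∈ S, (l : ℝ) ≤ L ^ η := by
  have h0 : 0 ≤ ∑ l ∈ S, (l : ℝ) := Finset.sum_nonneg (fun l _ => Nat.cast_nonneg l)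
  refine ⟨(2 + ∑ l ∈ S, (l : ℝ)) ^ (1 / η), ?_, ?_, ?_⟩
  · apply Real.one_le_rpow
    · linarith
    · positivity
  · rw [← Real.rpow_mul (by linarith), one_div_mul_cancel hη.ne', Real.rpow_one]
    linarith
  · intro l hl
    rw [← Real.rpow_mul (by linarith), one_div_mul_cancel hη.ne', Real.rpow_one]
    have := Finset.single_le_sum (f := fun l : ℕ => (l : ℝ))
      (fun l _ => Nat.cast_nonneg l) hl
    linarith

/-- the pair and the triple of terms -/
lemma pr_sum {t : ℤ × ℤ × ℤ} (h : t.1 + t.2.1 = t.2.2) :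
    max (max t.1.natAbs t.2.1.natAbs) t.2.2.natAbs = (pr t).1 + (pr t).2 ∧
    (pr t).1 * (pr t).2 * ((pr t).1 + (pr t).2) =
      t.1.natAbs * t.2.1.natAbs * t.2.2.natAbs := by
  unfold pr
  split_ifs with h1 h2
  · simp only
    rw [h1]
    exact ⟨by omega, rfl⟩
  · simp only
    rw [h2]
    exact ⟨by omega, by ring⟩
  · have h3 : t.2.1.natAbs + t.2.2.natAbs = t.1.natAbs := by omega
    simp only
    rw [h3]
    exact ⟨by omega, by ring⟩

lemma top_eq {t : ℤ × ℤ × ℤ} (h : t.1 + t.2.1 = t.2.2) :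
    top t = (((pr t).1 + (pr t).2 : ℕ) : ℝ) := by
  unfold top
  rw [← (pr_sum h).1]
  push_cast
  simp only [Nat.cast_natAbs, Int.cast_abs]

/-- solutions without small primes: few primes -/
lemma rough_pair {S : Finset ℕ} {n : ℕ} {η K s0 X Z : ℝ} (hη : 0 < η)
    (hn : n = S.card + ⌊1 / η⌋₊) (hs0 : s0 = ((∏ l ∈ S.filter Nat.Prime, l : ℕ) : ℝ))
    (hZ : 1 < Z) (hXZ : X ≤ Z) {a b c x y z : ℤ} {p q r : ℕ}
    (hs : Solution a b c x y z p q r)
    (hS : ∀ l : ℕ, l.Prime → (l : ℤ) ∣ a * b * c → l ∈ S)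
    (hX : |((x * y * z : ℤ) : ℝ)| ≤ X) (hno : ¬ SmallPrime (Z ^ η) (x * y * z))
    (htop : (s0 * Z) ^ K ≤ top (a * x ^ p, b * y ^ q, c * z ^ r))
    (hpos : 0 < (pr (a * x ^ p, b * y ^ q, c * z ^ r)).1 ∧
      0 < (pr (a * x ^ p, b * y ^ q, c * z ^ r)).2 ∧
      Nat.Coprime (pr (a * x ^ p, b * y ^ q, c * z ^ r)).1
        (pr (a * x ^ p, b * y ^ q, c * z ^ r)).2) :
    Sm.TallR n K (s0 * Z) (pr (a * x ^ p, b * y ^ q, c * z ^ r)) := by
  classical
  obtain ⟨heq, ha0, hb0, hc0, hx0, hy0, hz0, hp, hq, hr, hgcd⟩ := hs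
  have hsum : (a * x ^ p, b * y ^ q, c * z ^ r).1 + (a * x ^ p, b * y ^ q, c * z ^ r).2.1 =
      (a * x ^ p, b * y ^ q, c * z ^ r).2.2 := heq
  obtain ⟨h1, h2⟩ := pr_sum hsum
  rw [top_eq hsum] at htop
  obtain ⟨m, hm⟩ : ∃ m : ℕ, m = (x * y * z).natAbs := ⟨_, rfl⟩
  have hm0 : m ≠ 0 := by
    rw [hm]
    exact Int.natAbs_ne_zero.mpr (mul_ne_zero (mul_ne_zero hx0 hy0) hz0)
  have hmX : (m : ℝ) ≤ X := by
    rw [hm, Nat.cast_natAbs, Int.cast_abs]
    exact hX
  have hsub : ((pr (a * x ^ p, b * y ^ q, c * z ^ r)).1 *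
      (pr (a * x ^ p, b * y ^ q, c * z ^ r)).2 * ((pr (a * x ^ p, b * y ^ q, c * z ^ r)).1 +
        (pr (a * x ^ p, b * y ^ q, c * z ^ r)).2)).primeFactors ⊆
      S.filter Nat.Prime ∪ m.primeFactors := by
    intro l hl
    rw [h2, Nat.mem_primeFactors] at hl
    obtain ⟨hl, hld, -⟩ := hl
    rw [← Int.natAbs_mul, ← Int.natAbs_mul] at hld
    rw [← Int.natCast_dvd] at hld
    have hlp : Prime (l : ℤ) := Nat.prime_iff_prime_int.mp hl
    have key : (l : ℤ) ∣ a * b * c ∨ (l : ℤ) ∣ x * y * z := by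
      rcases hlp.dvd_or_dvd hld with h3 | h3
      · rcases hlp.dvd_or_dvd h3 with h3 | h3
        · rcases hlp.dvd_or_dvd h3 with h3 | h3
          · exact Or.inl ((h3.mul_right b).mul_right c)
          · exact Or.inr (((hlp.dvd_of_dvd_pow h3).mul_right y).mul_right z)
        · rcases hlp.dvd_or_dvd h3 with h3 | h3
          · exact Or.inl ((h3.mul_left a).mul_right c)
          · exact Or.inr (((hlp.dvd_of_dvd_pow h3).mul_left x).mul_right z)
      · rcases hlp.dvd_or_dvd h3 with h3 | h3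
        · exact Or.inl (h3.mul_left (a * b))
        · exact Or.inr ((hlp.dvd_of_dvd_pow h3).mul_left (x * y))
    rw [Finset.mem_union]
    rcases key with h3 | h3
    · exact Or.inl (Finset.mem_filter.mpr ⟨hS l hl h3, hl⟩)
    · right
      rw [Nat.mem_primeFactors, hm]
      exact ⟨hl, Int.natCast_dvd.mp h3, by rw [← hm]; exact hm0⟩
  have hprod : ∏ l ∈ m.primeFactors, l ≤ m :=
    Nat.le_of_dvd (Nat.pos_of_ne_zero hm0) (Nat.prod_primeFactors_dvd m)
  have hbig : ∀ l ∈ m.primeFactors, Z ^ η ≤ (l : ℝ) := by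
    intro l hl
    rw [Nat.mem_primeFactors] at hl
    by_contra h3
    rw [not_le] at h3
    apply hno
    refine ⟨l, hl.1, h3.le, ?_⟩
    rw [Int.natCast_dvd, ← hm]
    exact hl.2.1
  have hcard : m.primeFactors.card ≤ ⌊1 / η⌋₊ := by
    apply Nat.le_floor
    rw [le_div_iff₀ hη]
    have h3 : (Z ^ η) ^ m.primeFactors.card ≤ Z := by
      calc (Z ^ η) ^ m.primeFactors.card = ∏ _l ∈ m.primeFactors, Z ^ η := by
            rw [Finset.prod_const]
        _ ≤ ∏ l ∈ m.primeFactors, (l : ℝ) :=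
            Finset.prod_le_prod (fun l _ => by positivity) hbig
        _ ≤ (m : ℝ) := by
            have h9 : ((∏ l ∈ m.primeFactors, l : ℕ) : ℝ) ≤ (m : ℝ) := Nat.cast_le.mpr hprod
            rw [Nat.cast_prod] at h9
            exact h9
        _ ≤ Z := hmX.trans hXZ
    rw [← Real.rpow_natCast, ← Real.rpow_mul (by linarith)] at h3
    have h4 : Z ^ (η * (m.primeFactors.card : ℝ)) ≤ Z ^ (1 : ℝ) := by
      rw [Real.rpow_one]
      exact h3
    rw [Real.rpow_le_rpow_left_iff hZ] at h4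
    linarith
  refine ⟨hpos.1, hpos.2.1, hpos.2.2, ?_, ?_, htop⟩
  · calc _ ≤ (S.filter Nat.Prime ∪ m.primeFactors).card := Finset.card_le_card hsub
      _ ≤ (S.filter Nat.Prime).card + m.primeFactors.card := Finset.card_union_le _ _
      _ ≤ S.card + ⌊1 / η⌋₊ := Nat.add_le_add (Finset.card_filter_le _ _) hcard
      _ = n := hn.symm
  · have h3 : ∏ l ∈ ((pr (a * x ^ p, b * y ^ q, c * z ^ r)).1 *
        (pr (a * x ^ p, b * y ^ q, c * z ^ r)).2 * ((pr (a * x ^ p, b * y ^ q, c * z ^ r)).1 +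
        (pr (a * x ^ p, b * y ^ q, c * z ^ r)).2)).primeFactors, l ≤
        (∏ l ∈ S.filter Nat.Prime, l) * ∏ l ∈ m.primeFactors, l := by
      have h4 : ∀ l ∈ S.filter Nat.Prime ∪ m.primeFactors, 1 ≤ l := by
        intro l hl
        rw [Finset.mem_union, Finset.mem_filter] at hl
        rcases hl with hl | hl
        · exact hl.2.one_lt.le
        · exact (Nat.prime_of_mem_primeFactors hl).one_lt.le
      calc _ ≤ ∏ l ∈ S.filter Nat.Prime ∪ m.primeFactors, l :=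
            Finset.prod_le_prod_of_subset_of_one_le' hsub (fun l hl _ => h4 l hl)
        _ ≤ (∏ l ∈ S.filter Nat.Prime ∪ m.primeFactors, l) *
            ∏ l ∈ S.filter Nat.Prime ∩ m.primeFactors, l := by
            apply Nat.le_mul_of_pos_right
            apply Finset.prod_pos
            intro l hl
            exact h4 l (Finset.mem_union_left _ (Finset.mem_of_mem_inter_left hl))
        _ = _ := Finset.prod_union_inter
    have h5 : ((∏ l ∈ S.filter Nat.Prime, l) * ∏ l ∈ m.primeFactors, l : ℕ) ≤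
        (∏ l ∈ S.filter Nat.Prime, l) * m := Nat.mul_le_mul_left _ hprod
    calc _ ≤ (((∏ l ∈ S.filter Nat.Prime, l) * m : ℕ) : ℝ) := by exact_mod_cast h3.trans h5
      _ = s0 * m := by rw [Nat.cast_mul, hs0]
      _ ≤ s0 * Z := by
          apply mul_le_mul_of_nonneg_left (hmX.trans hXZ)
          rw [hs0]
          positivity

/-- **S-solutions of the generalised Fermat equation counted by their bases.** -/
theorem result :
    (∀ (n : ℕ) (δ ε : ℝ), 0 < δ → 0 < ε → ∃ (R : ℕ) (C η : ℝ), 0 < C ∧ 0 < η ∧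
      ∀ Y : ℝ, 1 ≤ Y → (General n R δ η Y).Finite ∧
        ((General n R δ η Y).ncard : ℝ) ≤ C * Y ^ ε) ∧
    (∀ (S : Finset ℕ) (ε : ℝ), 2 ∉ S → 0 < ε → ∃ (R : ℕ) (C : ℝ), 0 < C ∧
      ∀ Y : ℝ, 1 ≤ Y → (ByBases S R Y).Finite ∧
        ((ByBases S R Y).ncard : ℝ) ≤ C * Y ^ ε) ∧
    ∀ (S : Finset ℕ) (ε : ℝ), 0 < ε → ∃ (R : ℕ) (C : ℝ), 0 < C ∧
      ∀ X : ℝ, 1 ≤ X → (ByProduct S R X).Finite ∧
        ((ByProduct S R X).ncard : ℝ) ≤ C * X ^ (1 / 3 + ε) := by
  classical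
  refine ⟨?_, ?_, ?_⟩
  · intro n δ ε hδ hε
    obtain ⟨R, C, η, hC, hη, h⟩ := general n δ ε hδ hε
    exact ⟨R, C, η, hC, hη, fun Y hY => finite_bound (h Y hY)⟩
  · intro S ε h2 hε
    obtain ⟨R, C, η, hC, hη, h⟩ := general S.card 1 ε one_pos hε
    obtain ⟨L, hL1, hL2, hL⟩ := exists_L S hη
    refine ⟨R, C * L ^ ε, by positivity, ?_⟩
    intro Y hY
    have hLY : 1 ≤ L * Y := by nlinarith
    have hYL : Y ≤ L * Y := by nlinarith
    have hLY2 : L ^ η ≤ (L * Y) ^ η := Real.rpow_le_rpow (by linarith) (by nlinarith) hη.le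
    have hW1 : 1 ≤ (L * Y) ^ η := by linarith
    have hW : ∀ l ∈ S, (l : ℝ) ≤ (L * Y) ^ η := fun l hl => (hL l hl).trans hLY2
    have hfin : C * (L * Y) ^ ε = C * L ^ ε * Y ^ ε := by
      rw [Real.mul_rpow (by linarith) (by linarith)]
      ring
    rw [← hfin]
    apply finite_bound
    intro T hT
    apply h (L * Y) hLY T
    intro t ht
    obtain ⟨a, b, c, x, y, z, p, q, r, hs, rfl, hS, hR, hB⟩ := hT t ht
    have hs' := hs
    obtain ⟨heq, ha0, hb0, hc0, hx0, hy0, hz0, hp, hq, hr, hgcd⟩ := hs'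
    refine ⟨a, b, c, x, y, z, p, q, r, hs, rfl, ?_, ?_, ?_, ?_, hR, Or.inl ?_⟩
    · exact coeff_of_primes S hW1 hW ha0 (fun l hl hd => hS l hl ((hd.mul_right b).mul_right c))
    · exact coeff_of_primes S hW1 hW hb0 (fun l hl hd => hS l hl ((hd.mul_left a).mul_right c))
    · exact coeff_of_primes S hW1 hW hc0 (fun l hl hd => hS l hl (hd.mul_left (a * b)))
    · exact ⟨hB.1.trans hYL, hB.2.1.trans hYL, hB.2.2.trans hYL⟩
    · exact ⟨2, Nat.prime_two, by push_cast; linarith, by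
        push_cast
        exact even_base h2 hs hS⟩
  · intro S ε hε
    obtain ⟨R, C, η, hC, hη, h⟩ := general S.card 1 ε one_pos hε
    obtain ⟨L0, hL01, hL02, hL0⟩ := exists_L S hη
    obtain ⟨n, hn⟩ : ∃ n : ℕ, n = S.card + ⌊1 / η⌋₊ := ⟨_, rfl⟩
    obtain ⟨K, C3, hK, hC3, htall⟩ := Sm.tall_all n ε hε
    obtain ⟨s0, hs0⟩ : ∃ s0 : ℝ, s0 = ((∏ l ∈ S.filter Nat.Prime, l : ℕ) : ℝ) := ⟨_, rfl⟩
    have hs01 : 1 ≤ s0 := by
      rw [hs0]
      have : 0 < ∏ l ∈ S.filter Nat.Prime, l :=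
        Finset.prod_pos (fun l hl => (Finset.mem_filter.mp hl).2.pos)
      exact_mod_cast this
    -- the threshold
    have hev : ∀ᶠ Z : ℝ in Filter.atTop, K * Real.log (s0 * Z) ≤ Z ^ η := by
      have h1 := (isLittleO_log_rpow_atTop (by positivity : 0 < η / 2)).bound
        (by norm_num : (0 : ℝ) < 1)
      have h2 : ∀ᶠ Z : ℝ in Filter.atTop, K * (Real.log s0 + 1) ≤ Z ^ (η / 2) :=
        (tendsto_rpow_atTop (by positivity)).eventually_ge_atTop _
      filter_upwards [h1, h2, Filter.eventually_gt_atTop (1 : ℝ)] with Z h3 h4 hZ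
      have hZ0 : 0 < Z := by linarith
      have hl0 : 0 ≤ Real.log Z := Real.log_nonneg hZ.le
      have hls : 0 ≤ Real.log s0 := Real.log_nonneg hs01
      rw [Real.norm_eq_abs, Real.norm_eq_abs, abs_of_nonneg hl0, abs_of_pos (by positivity),
        one_mul] at h3
      rw [Real.log_mul (by linarith) hZ0.ne']
      have h5 : 1 ≤ Z ^ (η / 2) := Real.one_le_rpow hZ.le (by positivity)
      have h6 : Z ^ η = Z ^ (η / 2) * Z ^ (η / 2) := by
        rw [← Real.rpow_add hZ0]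
        ring_nf
      rw [h6]
      calc K * (Real.log s0 + Real.log Z) ≤ K * (Real.log s0 * Z ^ (η / 2) + Z ^ (η / 2)) := by
            have : Real.log s0 ≤ Real.log s0 * Z ^ (η / 2) := le_mul_of_one_le_right hls h5
            have h8 : Real.log s0 + Real.log Z ≤ Real.log s0 * Z ^ (η / 2) + Z ^ (η / 2) := by
              linarith
            exact mul_le_mul_of_nonneg_left h8 hK.le
        _ = (K * (Real.log s0 + 1)) * Z ^ (η / 2) := by ring
        _ ≤ Z ^ (η / 2) * Z ^ (η / 2) := by gcongr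
    obtain ⟨Z1, hZ1⟩ := Filter.eventually_atTop.mp hev
    obtain ⟨L, hLdef⟩ : ∃ L : ℝ, L = max (max L0 Z1) 2 := ⟨_, rfl⟩
    have hLL0 : L0 ≤ L := by rw [hLdef]; exact (le_max_left _ _).trans (le_max_left _ _)
    have hLZ1 : Z1 ≤ L := by rw [hLdef]; exact (le_max_right _ _).trans (le_max_left _ _)
    have hL2 : 2 ≤ L := by rw [hLdef]; exact le_max_right _ _
    refine ⟨R, (C + 12 * (C3 * s0 ^ (1 / 3 + ε))) * L ^ (1 / 3 + ε), by positivity, ?_⟩
    intro X hX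
    obtain ⟨Z, hZdef⟩ : ∃ Z : ℝ, Z = L * X := ⟨_, rfl⟩
    have hLZ : L ≤ Z := by rw [hZdef]; nlinarith
    have hXZ : X ≤ Z := by rw [hZdef]; nlinarith
    have hZ2 : 2 ≤ Z := hL2.trans hLZ
    have hZpos : 0 < Z := by linarith
    have hZη : L0 ^ η ≤ Z ^ η := Real.rpow_le_rpow (by linarith) (hLL0.trans hLZ) hη.le
    have hW1 : 1 ≤ Z ^ η := by linarith
    have hW : ∀ l ∈ S, (l : ℝ) ≤ Z ^ η := fun l hl => (hL0 l hl).trans hZη
    apply finite_bound
    intro T hT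
    have hcoef : ∀ {a b c x y z : ℤ} {p q r : ℕ}, Solution a b c x y z p q r →
        (∀ l : ℕ, l.Prime → (l : ℤ) ∣ a * b * c → l ∈ S) → Coefficient S.card (Z ^ η) a ∧
        Coefficient S.card (Z ^ η) b ∧ Coefficient S.card (Z ^ η) c := by
      intro a b c x y z p q r hs hS
      obtain ⟨heq, ha0, hb0, hc0, hx0, hy0, hz0, hp, hq, hr, hgcd⟩ := hs
      exact ⟨coeff_of_primes S hW1 hW ha0
          (fun l hl hd => hS l hl ((hd.mul_right b).mul_right c)),
        coeff_of_primes S hW1 hW hb0 (fun l hl hd => hS l hl ((hd.mul_left a).mul_right c)),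
        coeff_of_primes S hW1 hW hc0 (fun l hl hd => hS l hl (hd.mul_left (a * b)))⟩
    have hbas : ∀ {x y z : ℤ}, x ≠ 0 → y ≠ 0 → z ≠ 0 → |((x * y * z : ℤ) : ℝ)| ≤ X →
        Bases Z x y z := by
      intro x y z hx hy hz h1
      have hx1 : (1 : ℝ) ≤ |(x : ℝ)| := by exact_mod_cast Int.one_le_abs hx
      have hy1 : (1 : ℝ) ≤ |(y : ℝ)| := by exact_mod_cast Int.one_le_abs hy
      have hz1 : (1 : ℝ) ≤ |(z : ℝ)| := by exact_mod_cast Int.one_le_abs hz
      push_cast at h1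
      rw [abs_mul, abs_mul] at h1
      have h2 : |(x : ℝ)| * |(y : ℝ)| ≤ |(x : ℝ)| * |(y : ℝ)| * |(z : ℝ)| :=
        le_mul_of_one_le_right (by positivity) hz1
      have h3 : |(x : ℝ)| ≤ |(x : ℝ)| * |(y : ℝ)| := le_mul_of_one_le_right (by positivity) hy1
      have h4 : |(y : ℝ)| ≤ |(x : ℝ)| * |(y : ℝ)| := le_mul_of_one_le_left (by positivity) hx1
      have h5 : 1 ≤ |(x : ℝ)| * |(y : ℝ)| := by nlinarith
      have h6 : |(z : ℝ)| ≤ |(x : ℝ)| * |(y : ℝ)| * |(z : ℝ)| :=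
        le_mul_of_one_le_left (by positivity) h5
      exact ⟨by linarith, by linarith, by linarith⟩
    let T1 := T.filter (fun t => t ∈ General S.card R 1 η Z)
    let T2 := T.filter (fun t => t ∉ General S.card R 1 η Z)
    have hc1 : (T1.card : ℝ) ≤ C * Z ^ ε :=
      h Z (by linarith) T1 (fun t ht => (Finset.mem_filter.mp ht).2)
    have hc2 : (T2.card : ℝ) ≤ 12 * (C3 * (s0 * Z) ^ (1 / 3 + ε)) := by
      have h1 := card_terms T2 (by
        intro t ht
        obtain ⟨a, b, c, x, y, z, p, q, r, hs, rfl, -⟩ := hT t (Finset.mem_filter.mp ht).1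
        exact hs.1)
      have h2 := htall (s0 * Z) (by nlinarith) (T2.image pr) (by
        intro w hw
        rw [Finset.mem_image] at hw
        obtain ⟨t, ht, rfl⟩ := hw
        obtain ⟨ht, hnot⟩ := Finset.mem_filter.mp ht
        obtain ⟨a, b, c, x, y, z, p, q, r, hs, rfl, hS, hR, hB⟩ := hT t ht
        obtain ⟨k1, k2, k3⟩ := hcoef hs hS
        have hbb := hbas hs.2.2.2.2.1 hs.2.2.2.2.2.1 hs.2.2.2.2.2.2.1 hB
        have hno : ¬ SmallPrime (Z ^ η) (x * y * z) := by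
          intro h5
          exact hnot ⟨a, b, c, x, y, z, p, q, r, hs, rfl, k1, k2, k3, hbb, hR, Or.inl h5⟩
        have htop : ¬ top (a * x ^ p, b * y ^ q, c * z ^ r) ≤ Real.exp (Z ^ η) := by
          intro h5
          exact hnot ⟨a, b, c, x, y, z, p, q, r, hs, rfl, k1, k2, k3, hbb, hR,
            Or.inr (Or.inr h5)⟩
        rw [not_le] at htop
        apply rough_pair hη hn hs0 (by linarith) hXZ hs hS hB hno
        · refine le_trans ?_ htop.le
          have hsZ : 0 < s0 * Z := by nlinarith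
          rw [Real.rpow_def_of_pos hsZ]
          apply Real.exp_le_exp.mpr
          have := hZ1 Z (hLZ1.trans hLZ)
          linarith
        · -- positivity and coprimality from a larger bound for the bases
          obtain ⟨Y, hY1, hY2⟩ : ∃ Y : ℝ, Z ≤ Y ∧
              top (a * x ^ p, b * y ^ q, c * z ^ r) ≤ Real.exp (Y ^ η) := by
            have h6 : ∀ᶠ Y : ℝ in Filter.atTop,
                Real.log (top (a * x ^ p, b * y ^ q, c * z ^ r)) ≤ Y ^ η :=
              (tendsto_rpow_atTop hη).eventually_ge_atTop _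
            obtain ⟨Y, hY⟩ := (h6.and (Filter.eventually_ge_atTop Z)).exists
            refine ⟨Y, hY.2, ?_⟩
            rw [← Real.exp_log ((Real.exp_pos _).trans htop)]
            exact Real.exp_le_exp.mpr hY.1
          have hZY : Z ^ η ≤ Y ^ η := Real.rpow_le_rpow hZpos.le hY1 hη.le
          have hmonoC : ∀ {u : ℤ}, Coefficient S.card (Z ^ η) u →
              Coefficient S.card (Y ^ η) u := by
            rintro u ⟨v, e, hv, hu⟩
            exact ⟨v, e, fun i => ⟨(hv i).1, (hv i).2.trans hZY⟩, hu⟩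
          have h7 := ft_terms (R := R) (δ := 1) (η := η) (Y := Y) hs (hmonoC k1) (hmonoC k2)
            (hmonoC k3) ⟨hbb.1.trans hY1, hbb.2.1.trans hY1, hbb.2.2.trans hY1⟩ hR
            (Or.inr (Or.inr hY2))
          exact ⟨h7.1, h7.2.1, h7.2.2.1⟩)
      have h3 : (T2.card : ℝ) ≤ 12 * ((T2.image pr).card : ℝ) := by exact_mod_cast h1
      linarith
    have hcard : T.card = T1.card + T2.card :=
      (Finset.card_filter_add_card_filter_not _).symm
    have h1 : Z ^ ε ≤ Z ^ (1 / 3 + ε) :=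
      Real.rpow_le_rpow_of_exponent_le (by linarith) (by linarith)
    have h2 : (s0 * Z) ^ (1 / 3 + ε) = s0 ^ (1 / 3 + ε) * Z ^ (1 / 3 + ε) :=
      Real.mul_rpow (by linarith) hZpos.le
    have h3 : Z ^ (1 / 3 + ε) = L ^ (1 / 3 + ε) * X ^ (1 / 3 + ε) := by
      rw [hZdef]
      exact Real.mul_rpow (by linarith) (by linarith)
    calc (T.card : ℝ) = T1.card + T2.card := by exact_mod_cast hcard
      _ ≤ C * Z ^ ε + 12 * (C3 * (s0 * Z) ^ (1 / 3 + ε)) := by linarith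
      _ ≤ C * Z ^ (1 / 3 + ε) + 12 * (C3 * (s0 ^ (1 / 3 + ε) * Z ^ (1 / 3 + ε))) := by
          rw [h2]
          have : C * Z ^ ε ≤ C * Z ^ (1 / 3 + ε) := by gcongr
          linarith
      _ = (C + 12 * (C3 * s0 ^ (1 / 3 + ε))) * L ^ (1 / 3 + ε) * X ^ (1 / 3 + ε) := by
          rw [h3]
          ring

end Pool.Agent.Results.MP_be1fae_nt.AllSolutionsByBases
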