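import Pool.Agent.Y119.UP.Main
import Pool.Agent.Y119.UP.Hyp

/-!
# Iterated integrals of algebraic differentials at almost all rational points

Let `u_i(t) dt` be differentials with algebraic coefficients on an interval, no nontrivial combination of which is exact,
and let `I_w` be their iterated integrals, `w` a word in the letters `i` (polylogarithms and multiple polylogarithms in
one variable, hyperlogarithms, iterated integrals of hyperelliptic differentials, …).  All relations between `π` and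
the values of the `I_w` at rational points follow formally from the shuffle relations, which express all polynomials in
the values at one point as linear combinations of the values, except at few points: there are no linear relations
between the products of values at different points and powers of `π` with coefficients that are not too large.
-/

set_option autoImplicit false

open Polynomial

namespace Pool.Agent.Results.MP_1eadae_ag.IteratedIntegrals

/-- `g` is an algebraic function on `(α, β)`: `P(t, g(t)) = 0` for some real polynomial `P ≠ 0` in two variables. -/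
def Algebraic (α β : ℝ) (g : ℝ → ℝ) : Prop :=
  ∃ P : MvPolynomial (Fin 2) ℝ, P ≠ 0 ∧ ∀ t ∈ Set.Ioo α β, MvPolynomial.eval ![t, g t] P = 0

/-- Real analytic algebraic functions `u_i` and `v_l` on `(α, β)`, and functions `I_w` for all words `w` in the letters
`i`, such that no nontrivial real combination of the `u_i` is the derivative of an algebraic function, the `v_l` are
linearly independent over the real polynomials, `I_w = 1` for the empty word, and `I_(iw)` is a primitive of
`u_i I_w` (any primitive; for example, `I_(iw)(t) = ∫ u_i(s) I_w(s) ds` over `[c, t]`, with a fixed `c`). -/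
structure Family {κ ρ : Type} [Fintype κ] [Fintype ρ] (α β : ℝ) (u : κ → ℝ → ℝ) (v : ρ → ℝ → ℝ)
    (I : List κ → ℝ → ℝ) : Prop where
  u_analytic : ∀ i, AnalyticOnNhd ℝ (u i) (Set.Ioo α β)
  u_algebraic : ∀ i, Algebraic α β (u i)
  not_exact : ∀ c : κ → ℝ, c ≠ 0 → ¬ ∃ g : ℝ → ℝ, Algebraic α β g ∧
    ∀ t ∈ Set.Ioo α β, HasDerivAt g (∑ i, c i * u i t) t
  v_analytic : ∀ l, AnalyticOnNhd ℝ (v l) (Set.Ioo α β)
  v_algebraic : ∀ l, Algebraic α β (v l)
  v_independent : ∀ p : ρ → ℝ[X], (∀ t ∈ Set.Ioo α β, ∑ l, (p l).eval t * v l t = 0) → p = 0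
  empty_word : ∀ t ∈ Set.Ioo α β, I [] t = 1
  primitive : ∀ i w, ∀ t ∈ Set.Ioo α β, HasDerivAt (I (i :: w)) (u i t * I w t) t

/-- the words of length at most `W` in the letters `κ`: a length and the letters -/
abbrev Words (κ : Type) (W : ℕ) : Type := (r : Fin (W + 1)) × (Fin r → κ)

/-- the value `v_l(t) I_w(t)` for `x = (w, l)` -/
def value {κ ρ : Type} {W : ℕ} (v : ρ → ℝ → ℝ) (I : List κ → ℝ → ℝ) (x : Words κ W × ρ) (t : ℝ) : ℝ :=
  v x.2 t * I (List.ofFn x.1.2) t

/-- The number `((1 + |κ| + … + |κ|^W) |ρ|)^n (d + 1)` of the products `π^e ∏ v_(l_j)(q_j) I_(w_j)(q_j)`, where `e ≤ d` and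
the `w_j` have length at most `W`. -/
noncomputable def M (κ ρ : Type) [Fintype κ] [Fintype ρ] (n d W : ℕ) : ℝ :=
  (((∑ r ∈ Finset.range (W + 1), Fintype.card κ ^ r) * Fintype.card ρ : ℕ) : ℝ) ^ n * ((d : ℝ) + 1)

/-- The `n`-tuples of rational numbers `q_j` in `[a_j, b_j]` with denominators at most `T` for which some nontrivial
linear combination of the products `π^e ∏ v_(l_j)(q_j) I_(w_j)(q_j)`, `e ≤ d`, `w_j` of length at most `W`, with integer
coefficients of absolute value at most `T ^ A` has absolute value at most `T ^ (-B)`. -/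
def Exceptional {κ ρ : Type} [Fintype κ] [Fintype ρ] (n d W : ℕ) (v : Fin n → ρ → ℝ → ℝ)
    (I : Fin n → List κ → ℝ → ℝ) (a b : Fin n → ℝ) (A B T : ℝ) : Set (Fin n → ℚ) :=
  {q | (∀ j, a j ≤ q j ∧ q j ≤ b j ∧ ((q j).den : ℝ) ≤ T) ∧
    ∃ c : (Fin n → Words κ W × ρ) × Fin (d + 1) → ℤ, c ≠ 0 ∧ (∀ x, |(c x : ℝ)| ≤ T ^ A) ∧
      |∑ x, (c x : ℝ) * ((∏ j, value (v j) (I j) (x.1 j) (q j)) * Real.pi ^ (x.2 : ℕ))| ≤ T ^ (-B)}

/-- the functions `t^i / √(f(t))`, `i < k`, and `1 / (t - s_j)` -/
noncomputable def uHyp {k r : ℕ} (f : ℝ[X]) (s : Fin r → ℝ) : Fin k ⊕ Fin r → ℝ → ℝ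
  | Sum.inl i => fun t => t ^ (i : ℕ) / √(f.eval t)
  | Sum.inr j => fun t => 1 / (t - s j)

/-- the functions `1` and `√(f(t))` -/
noncomputable def vHyp (f : ℝ[X]) : Fin 2 → ℝ → ℝ := ![fun _ => 1, fun t => √(f.eval t)]

/-- **Main result.**  1. For `n` families and `γ > 2 - 2 / (M + 1)` there are `B` and `C` such that for all `T ≥ 1` there
are at most `C T ^ (2 (n - 1) + γ)` exceptional `n`-tuples.  2. For every square-free real polynomial `f` of degree at
least `k + 1 ≥ 1` which is positive on `(α, β)` and distinct real numbers `s_j` outside `(α, β)`, the differentials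
`t^i dt / √(f(t))`, `i < k`, and `dt / (t - s_j)`, the functions `v = 1, √f` and all iterated integrals form a family. -/
theorem result :
    (∀ (κ ρ : Type) [Fintype κ] [Fintype ρ] [Nonempty ρ] (n d W : ℕ), 1 ≤ n →
      ∀ (α a b β : Fin n → ℝ), (∀ j, α j < a j ∧ a j < b j ∧ b j < β j) →
      ∀ (u : Fin n → κ → ℝ → ℝ) (v : Fin n → ρ → ℝ → ℝ) (I : Fin n → List κ → ℝ → ℝ),
      (∀ j, Family (α j) (β j) (u j) (v j) (I j)) →
      ∀ A γ : ℝ, 0 ≤ A → 2 - 2 / (M κ ρ n d W + 1) < γ →
      ∃ B C : ℝ, ∀ T : ℝ, 1 ≤ T → (Exceptional n d W v I a b A B T).Finite ∧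
        ((Exceptional n d W v I a b A B T).ncard : ℝ) ≤ C * T ^ (2 * ((n : ℝ) - 1) + γ)) ∧
    (∀ (k r : ℕ) (f : ℝ[X]) (s : Fin r → ℝ) (α β : ℝ) (I : List (Fin k ⊕ Fin r) → ℝ → ℝ),
      Squarefree f → k + 1 ≤ f.natDegree → α < β → (∀ t ∈ Set.Ioo α β, 0 < f.eval t) →
      Function.Injective s → (∀ j, s j ∉ Set.Ioo α β) → (∀ t ∈ Set.Ioo α β, I [] t = 1) →
      (∀ i w, ∀ t ∈ Set.Ioo α β, HasDerivAt (I (i :: w)) (uHyp f s i t * I w t) t) →
      Family α β (uHyp f s) (vHyp f) I) := by
  constructor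
  · intro κ ρ _ _ _ n d W hn α a b β hab u v I hF A γ hA hγ
    exact Pool.Agent.Y119.UP.almost_all n d W hn α a b β hab u v I
      (fun j => ⟨(hF j).u_analytic, (hF j).u_algebraic, fun c hc => by
        by_contra hne
        exact (hF j).not_exact c hne hc, (hF j).v_analytic, (hF j).v_algebraic,
        (hF j).v_independent, (hF j).empty_word, (hF j).primitive⟩) A γ hA hγ
  · intro k r f s α β I hf hk hαβ hpos hs hsα hI0 hI
    have hu : uHyp (k := k) f s = Pool.Agent.Y119.UP.uH f (fun j => -s j) := by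
      funext i t
      rcases i with i | j
      · rfl
      · simp only [uHyp, Pool.Agent.Y119.UP.uH, sub_eq_add_neg]
    have hx : ∀ j, ∀ t ∈ Set.Ioo α β, t + -s j ≠ 0 := by
      intro j t ht h
      apply hsα j
      have : s j = t := by linarith
      rw [this]; exact ht
    have hxi : Function.Injective fun j => -s j := fun i j h => hs (neg_injective h)
    rw [hu] at hI ⊢
    exact ⟨Pool.Agent.Y119.UP.uH_an f _ hpos hx, Pool.Agent.Y119.UP.uH_alg f _ hpos hx,
      fun c hc hg => hc (Pool.Agent.Y119.UP.uH_prim f hf hk _ hxi hαβ hpos hx c hg),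
      Pool.Agent.Y119.UP.vH_an f hpos, Pool.Agent.Y119.UP.vH_alg f hpos,
      Pool.Agent.Y119.UP.vH_ind f hf (by omega) hαβ hpos, hI0, hI⟩

end Pool.Agent.Results.MP_1eadae_ag.IteratedIntegrals
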